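import Pool.Agent.W229.HD.Stm

/-!
Lengths of frequencies.
-/

set_option autoImplicit false
set_option linter.all false

open MeasureTheory Set Filter Topology

namespace Pool.Agent.W229.HD

theorem nm_nonneg (k : K3) : 0 ≤ nm k := Real.sqrt_nonneg _

theorem nm_sq (k : K3) : nm k ^ 2 = ∑ j, (k j : ℝ) ^ 2 :=
  Real.sq_sqrt (Finset.sum_nonneg fun _ _ => sq_nonneg _)

theorem nm_neg (k : K3) : nm (-k) = nm k := by
  unfold nm
  congr 1
  refine Finset.sum_congr rfl fun j _ => ?_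
  simp

theorem nm_zero : nm 0 = 0 := by
  unfold nm
  simp

/-- the length as a norm -/
theorem nm_eq (k : K3) : nm k = ‖(WithLp.toLp 2 fun j => ((k j : ℤ) : ℝ) : EuclideanSpace ℝ (Fin 3))‖ := by
  rw [EuclideanSpace.norm_eq]
  unfold nm
  congr 1
  refine Finset.sum_congr rfl fun j _ => ?_
  simp

theorem nm_add_le (x y : K3) : nm (x + y) ≤ nm x + nm y := by
  rw [nm_eq, nm_eq, nm_eq]
  refine le_trans (le_of_eq ?_) (norm_add_le _ _)
  congr 1
  ext j
  simp

theorem one_le_nm {k : K3} (hk : k ≠ 0) : 1 ≤ nm k := by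
  obtain ⟨j, hj⟩ : ∃ j, k j ≠ 0 := by
    by_contra h
    push Not at h
    exact hk (funext h)
  have h1 : (1 : ℝ) ≤ (k j : ℝ) ^ 2 := by
    have : (1 : ℤ) ≤ k j ^ 2 := by
      have := pow_pos (abs_pos.mpr hj) 2
      rw [sq_abs] at this
      omega
    exact_mod_cast this
  unfold nm
  rw [Real.one_le_sqrt]
  refine h1.trans ?_
  exact Finset.single_le_sum (f := fun j => (k j : ℝ) ^ 2) (fun i _ => sq_nonneg _)
    (Finset.mem_univ j)

theorem nm_pos {k : K3} (hk : k ≠ 0) : 0 < nm k := lt_of_lt_of_le one_pos (one_le_nm hk)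

theorem nm_le_add (x y : K3) : nm x ≤ nm (x + y) + nm y := by
  have h := nm_add_le (x + y) (-y)
  rw [nm_neg] at h
  simpa using h

theorem norm_cj (v : E3) : ‖cj v‖ = ‖v‖ := by
  rw [EuclideanSpace.norm_eq, EuclideanSpace.norm_eq]
  congr 1
  refine Finset.sum_congr rfl fun j _ => ?_
  simp [cj]

theorem norm_neg_eq {a : K3 → E3} (h : ∀ k, a (-k) = cj (a k)) (k : K3) : ‖a (-k)‖ = ‖a k‖ := by
  rw [h, norm_cj]

theorem lo_nonneg (x y : K3) : 0 ≤ lo x y :=
  le_min (nm_nonneg _) (le_min (nm_nonneg _) (nm_nonneg _))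

theorem hi_nonneg (x y : K3) : 0 ≤ hi x y := le_max_of_le_left (nm_nonneg _)

theorem Q_nonneg (S : Finset K3) (r : ℝ) (a : K3 → E3) : 0 ≤ Q S r a :=
  Finset.sum_nonneg fun k _ => mul_nonneg (Real.rpow_nonneg (nm_nonneg _) _) (sq_nonneg _)

theorem Q_mono {S : Finset K3} (hS : (0 : K3) ∉ S) {r r' : ℝ} (h : r ≤ r') (a : K3 → E3) :
    Q S r a ≤ Q S r' a := by
  refine Finset.sum_le_sum fun k hk => ?_
  have hk0 : k ≠ 0 := fun h => hS (h ▸ hk)
  exact mul_le_mul_of_nonneg_right (Real.rpow_le_rpow_of_exponent_le (one_le_nm hk0) h)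
    (sq_nonneg _)

end Pool.Agent.W229.HD
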