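import Pool.Agent.W229.HD.Basic

/-!
Cauchy-Schwarz for sparse sets of triads.
-/

set_option autoImplicit false
set_option linter.all false

open MeasureTheory Set Filter Topology

namespace Pool.Agent.W229.HD

theorem csh : S_CSH := by
  classical
  intro α B hB S hS f g h hf hg hh T hT hB'
  have hpos : ∀ k ∈ S, 0 < nm k := fun k hk => nm_pos (hS k hk)
  set u : K3 × K3 → ℝ := fun q => nm q.1 ^ (1 / 2 : ℝ) * nm q.2 ^ (1 - α) * f q.1 with hu
  set v : K3 × K3 → ℝ := fun q => nm q.1 ^ (1 / 2 : ℝ) * nm q.2 ^ α * (g q.2 * h (q.1 + q.2)) with hv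
  have h1 : ∑ q ∈ T, nm q.2 * nm q.1 * (f q.1 * g q.2 * h (q.1 + q.2)) = ∑ q ∈ T, u q * v q := by
    refine Finset.sum_congr rfl fun q hq => ?_
    obtain ⟨hq1, hq2, hq3, hq4⟩ := hT q hq
    have e1 : nm q.1 ^ (1 / 2 : ℝ) * nm q.1 ^ (1 / 2 : ℝ) = nm q.1 := by
      rw [← Real.rpow_add (hpos _ hq1)]
      norm_num
    have e2 : nm q.2 ^ (1 - α) * nm q.2 ^ α = nm q.2 := by
      rw [← Real.rpow_add (hpos _ hq2)]
      norm_num
    calc nm q.2 * nm q.1 * (f q.1 * g q.2 * h (q.1 + q.2))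
        = (nm q.2 ^ (1 - α) * nm q.2 ^ α) * (nm q.1 ^ (1 / 2 : ℝ) * nm q.1 ^ (1 / 2 : ℝ)) *
          (f q.1 * g q.2 * h (q.1 + q.2)) := by rw [e1, e2]
      _ = u q * v q := by simp only [hu, hv]; ring
  have h2 : ∑ q ∈ T, u q ^ 2 ≤ B * ∑ k ∈ S, nm k ^ (1 + 2 * α) * f k ^ 2 := by
    have hf1 : ∑ q ∈ T, u q ^ 2 = ∑ p ∈ S, ∑ q ∈ T with q.1 = p, u q ^ 2 :=
      (Finset.sum_fiberwise_of_maps_to (fun q hq => (hT q hq).1) _).symm
    rw [hf1, Finset.mul_sum]
    refine Finset.sum_le_sum fun p hp => ?_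
    have hinj : Set.InjOn Prod.snd (↑(T.filter fun q => q.1 = p) : Set (K3 × K3)) := by
      intro x hx y hy hxy
      have hx' := (Finset.mem_filter.mp (Finset.mem_coe.mp hx)).2
      have hy' := (Finset.mem_filter.mp (Finset.mem_coe.mp hy)).2
      exact Prod.ext (hx'.trans hy'.symm) hxy
    have hB2 := hB' p hp ((T.filter fun q => q.1 = p).image Prod.snd) (by
      intro l hl
      obtain ⟨q, hq, rfl⟩ := Finset.mem_image.mp hl
      obtain ⟨hq1, hq2⟩ := Finset.mem_filter.mp hq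
      rw [← hq2]
      exact hq1)
    rw [Finset.sum_image hinj] at hB2
    have hp0 := hpos p hp
    calc ∑ q ∈ T with q.1 = p, u q ^ 2
        = ∑ q ∈ T with q.1 = p, (nm p * f p ^ 2) * nm q.2 ^ (2 - 2 * α) := by
          refine Finset.sum_congr rfl fun q hq => ?_
          obtain ⟨hq1, hq2⟩ := Finset.mem_filter.mp hq
          have hq20 := hpos _ (hT q hq1).2.1
          simp only [hu]
          rw [hq2, mul_pow, mul_pow]
          have e1 : (nm p ^ (1 / 2 : ℝ)) ^ 2 = nm p := by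
            rw [← Real.rpow_natCast, ← Real.rpow_mul hp0.le]
            norm_num
          have e2 : (nm q.2 ^ (1 - α)) ^ 2 = nm q.2 ^ (2 - 2 * α) := by
            rw [← Real.rpow_natCast, ← Real.rpow_mul hq20.le]
            congr 1
            push_cast
            ring
          rw [e1, e2]
          ring
      _ = (nm p * f p ^ 2) * ∑ q ∈ T with q.1 = p, nm q.2 ^ (2 - 2 * α) := by
          rw [Finset.mul_sum]
      _ ≤ (nm p * f p ^ 2) * (B * nm p ^ (2 * α)) :=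
          mul_le_mul_of_nonneg_left hB2 (by positivity)
      _ = B * (nm p ^ (1 + 2 * α) * f p ^ 2) := by
          rw [Real.rpow_add hp0, Real.rpow_one]
          ring
  have h3 : ∑ q ∈ T, v q ^ 2 ≤
      2 * ((∑ k ∈ S, nm k ^ (2 * α) * g k ^ 2) * ∑ k ∈ S, nm k ^ (1 : ℝ) * h k ^ 2) := by
    have hinj : Set.InjOn (fun q : K3 × K3 => (q.2, q.1 + q.2)) (↑T : Set (K3 × K3)) := by
      intro x _ y _ hxy
      have hx2 : x.2 = y.2 := (Prod.ext_iff.mp hxy).1
      have hx3 : x.1 + x.2 = y.1 + y.2 := (Prod.ext_iff.mp hxy).2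
      rw [hx2] at hx3
      exact Prod.ext (add_right_cancel hx3) hx2
    calc ∑ q ∈ T, v q ^ 2
        ≤ ∑ q ∈ T, 2 * ((nm q.2 ^ (2 * α) * g q.2 ^ 2) *
            (nm (q.1 + q.2) ^ (1 : ℝ) * h (q.1 + q.2) ^ 2)) := by
          refine Finset.sum_le_sum fun q hq => ?_
          obtain ⟨hq1, hq2, hq3, hq4⟩ := hT q hq
          have hq10 := hpos _ hq1
          have hq20 := hpos _ hq2
          simp only [hv]
          have e1 : (nm q.1 ^ (1 / 2 : ℝ)) ^ 2 = nm q.1 := by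
            rw [← Real.rpow_natCast, ← Real.rpow_mul hq10.le]
            norm_num
          have e2 : (nm q.2 ^ α) ^ 2 = nm q.2 ^ (2 * α) := by
            rw [← Real.rpow_natCast, ← Real.rpow_mul hq20.le]
            congr 1
            push_cast
            ring
          rw [mul_pow, mul_pow, mul_pow, e1, e2, Real.rpow_one]
          have h0 : 0 ≤ nm q.2 ^ (2 * α) * (g q.2 ^ 2 * h (q.1 + q.2) ^ 2) := by positivity
          nlinarith [mul_le_mul_of_nonneg_right hq4 h0]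
      _ = 2 * ∑ q ∈ T.image (fun q : K3 × K3 => (q.2, q.1 + q.2)),
            (nm q.1 ^ (2 * α) * g q.1 ^ 2) * (nm q.2 ^ (1 : ℝ) * h q.2 ^ 2) := by
          rw [Finset.sum_image hinj, Finset.mul_sum]
      _ ≤ 2 * ∑ q ∈ S ×ˢ S,
            (nm q.1 ^ (2 * α) * g q.1 ^ 2) * (nm q.2 ^ (1 : ℝ) * h q.2 ^ 2) := by
          refine mul_le_mul_of_nonneg_left ?_ (by norm_num)
          refine Finset.sum_le_sum_of_subset_of_nonneg ?_ fun q _ _ => ?_
          · intro q hq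
            obtain ⟨r, hr, rfl⟩ := Finset.mem_image.mp hq
            exact Finset.mem_product.mpr ⟨(hT r hr).2.1, (hT r hr).2.2.1⟩
          · have := nm_nonneg q.1
            have := nm_nonneg q.2
            positivity
      _ = _ := by
          rw [Finset.sum_product, Finset.sum_mul_sum]
  rw [h1]
  have hcs := Finset.sum_mul_sq_le_sq_mul_sq T u v
  refine Real.le_sqrt_of_sq_le (hcs.trans ?_)
  have h20 : 0 ≤ ∑ q ∈ T, v q ^ 2 := Finset.sum_nonneg fun _ _ => sq_nonneg _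
  have hQ : 0 ≤ ∑ k ∈ S, nm k ^ (1 + 2 * α) * f k ^ 2 :=
    Finset.sum_nonneg fun k _ => mul_nonneg (Real.rpow_nonneg (nm_nonneg _) _) (sq_nonneg _)
  calc (∑ q ∈ T, u q ^ 2) * ∑ q ∈ T, v q ^ 2
      ≤ (B * ∑ k ∈ S, nm k ^ (1 + 2 * α) * f k ^ 2) *
        (2 * ((∑ k ∈ S, nm k ^ (2 * α) * g k ^ 2) * ∑ k ∈ S, nm k ^ (1 : ℝ) * h k ^ 2)) :=
        mul_le_mul h2 h3 h20 (mul_nonneg hB hQ)
    _ = _ := by ring

end Pool.Agent.W229.HD
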