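import Pool.Agent.W229.HD.Basic

/-!
The two main estimates.
-/

set_option autoImplicit false
set_option linter.all false

open MeasureTheory Set Filter Topology

namespace Pool.Agent.W229.HD

theorem high (h1 : S_ANT) (h2 : S_CSM) : S_HIGH := by
  intro m hm
  obtain ⟨C1, hC1, H1⟩ := h1 m hm
  obtain ⟨C2, hC2, H2⟩ := h2 m hm
  refine ⟨C1 * C2, mul_nonneg hC1 hC2, fun S a hS ha => ?_⟩
  refine (H1 S a hS ha).trans ?_
  rw [mul_assoc]
  refine mul_le_mul_of_nonneg_left ?_ hC1
  exact H2 S hS (fun k => ‖a k‖) (fun _ => norm_nonneg _) (norm_neg_eq ha.real)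
    (fun k hk => by simp [ha.supp k hk])

/-- helical sizes -/
noncomputable def hf (a : K3 → E3) (s : Bool) (k : K3) : ℝ := ‖hel s k (a k)‖

theorem hf_nonneg (a : K3 → E3) (s : Bool) (k : K3) : 0 ≤ hf a s k := norm_nonneg _

theorem hf_neg (h1 : S_HEL) {a : K3 → E3} (ha : ∀ k, a (-k) = cj (a k)) (s : Bool) {k : K3}
    (hk : k ≠ 0) : hf a s (-k) = hf a s k := by
  obtain ⟨-, -, -, -, -, -, -, h8, -, -⟩ := h1 s k hk (a k) 0 0
  unfold hf
  rw [ha, h8, norm_cj]

theorem hf_sq_le (h1 : S_HEL) (a : K3 → E3) (s : Bool) {k : K3} (hk : k ≠ 0) :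
    hf a s k ^ 2 ≤ ‖a k‖ ^ 2 := by
  obtain ⟨-, -, -, -, -, -, -, -, -, h10⟩ := h1 s k hk (a k) 0 0
  unfold hf
  cases s
  · nlinarith [sq_nonneg ‖hel true k (a k)‖]
  · nlinarith [sq_nonneg ‖hel false k (a k)‖]

theorem hel_zero_right (s : Bool) (k : K3) : hel s k 0 = 0 := by
  have h0 : dt (kc k) 0 = 0 := by simp [dt]
  have h1 : cr (kc k) 0 = 0 := by
    ext j
    fin_cases j <;> simp [cr]
  unfold hel
  rw [h0, h1]
  simp

theorem hf_supp {S : Finset K3} {a : K3 → E3} (ha : Fld S a) (s : Bool) {k : K3} (hk : k ∉ S) :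
    hf a s k = 0 := by
  unfold hf
  rw [ha.supp k hk, hel_zero_right, norm_zero]

theorem hf_mem (h2 : S_DEC) {Λ : Bool → Set K3} (hΛ : Modes Λ) {a : K3 → E3} (ha : Adm Λ a)
    (s : Bool) {k : K3} (hk : k ∉ Λ s) : hf a s k = 0 := by
  obtain ⟨-, -, -, -, -, -, -, -, h9⟩ := h2 Λ hΛ k (a k) 0 0 s
  have := h9 hk
  rw [ha.mem] at this
  unfold hf
  rw [this, norm_zero]

open Classical in
/-- triads: `p` high of sign `s`, `l` low of sign `s'`, the third one of sign `s''` -/
noncomputable def TT (Λ : Bool → Set K3) (S : Finset K3) (s s' s'' : Bool) : Finset (K3 × K3) :=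
  (S ×ˢ S).filter fun q => q.1 + q.2 ∈ S ∧ nm q.2 ≤ nm q.1 ∧ nm q.2 ≤ nm (q.1 + q.2) ∧
    q.1 ∈ Λ s ∧ q.2 ∈ Λ s' ∧ q.1 + q.2 ∈ Λ s''

theorem mem_TT {Λ : Bool → Set K3} {S : Finset K3} {s s' s'' : Bool} {q : K3 × K3} :
    q ∈ TT Λ S s s' s'' ↔ (q.1 ∈ S ∧ q.2 ∈ S) ∧ q.1 + q.2 ∈ S ∧ nm q.2 ≤ nm q.1 ∧
      nm q.2 ≤ nm (q.1 + q.2) ∧ q.1 ∈ Λ s ∧ q.2 ∈ Λ s' ∧ q.1 + q.2 ∈ Λ s'' := by
  simp [TT, Finset.mem_filter, Finset.mem_product]

/-- the bound for one kind of triads -/
theorem tt_le (h1 : S_HEL) (h3 : S_CSH) {α A : ℝ} {Λ : Bool → Set K3} (hA : 0 ≤ A)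
    (hsp : Sparse α Λ A) {S : Finset K3} {a : K3 → E3} (hS : Fr S) (ha : Fld S a)
    (s s' s'' : Bool) (hh : (s' = !s ∧ s'' = s) ∨ (s' = s ∧ s'' = !s)) :
    ∑ q ∈ TT Λ S s s' s'', nm q.2 * nm q.1 * (hf a s q.1 * hf a s' q.2 * hf a s'' (q.1 + q.2))
      ≤ Real.sqrt (2 * A * (Q S (1 + 2 * α) a * Q S (2 * α) a * Q S 1 a)) := by
  have hS0 : ∀ k ∈ S, k ≠ 0 := fun k hk h => hS.zero (h ▸ hk)
  have hle : ∀ (t : Bool) (r : ℝ), ∑ k ∈ S, nm k ^ r * hf a t k ^ 2 ≤ Q S r a := fun t r =>
    Finset.sum_le_sum fun k hk => mul_le_mul_of_nonneg_left (hf_sq_le h1 a t (hS0 k hk))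
      (Real.rpow_nonneg (nm_nonneg _) _)
  have hnn : ∀ (t : Bool) (r : ℝ), 0 ≤ ∑ k ∈ S, nm k ^ r * hf a t k ^ 2 := fun t r =>
    Finset.sum_nonneg fun k _ => mul_nonneg (Real.rpow_nonneg (nm_nonneg _) _) (sq_nonneg _)
  refine (h3 α A hA S hS0 (hf a s) (hf a s') (hf a s'') (hf_nonneg a s) (hf_nonneg a s')
    (hf_nonneg a s'') (TT Λ S s s' s'') ?_ ?_).trans ?_
  · intro q hq
    rw [mem_TT] at hq
    obtain ⟨⟨q1, q2⟩, q3, q4, q5, -, -, -⟩ := hq
    refine ⟨q1, q2, q3, ?_⟩
    have := nm_le_add q.1 q.2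
    linarith
  · intro p hp F hF
    rcases F.eq_empty_or_nonempty with rfl | ⟨l0, hl0⟩
    · simp only [Finset.sum_empty]
      exact mul_nonneg hA (Real.rpow_nonneg (nm_nonneg _) _)
    · have h0 := mem_TT.mp (hF l0 hl0)
      refine hsp s p h0.2.2.2.2.1 F fun l hl => ?_
      have h := mem_TT.mp (hF l hl)
      refine ⟨h.2.2.1, ?_⟩
      obtain ⟨-, -, -, -, -, g1, g2⟩ := h
      rcases hh with ⟨rfl, rfl⟩ | ⟨rfl, rfl⟩
      · exact Or.inl ⟨g1, g2⟩
      · exact Or.inr ⟨g1, g2⟩
  · refine Real.sqrt_le_sqrt ?_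
    refine mul_le_mul_of_nonneg_left ?_ (by positivity)
    have e1 := hle s (1 + 2 * α)
    have e2 := hle s' (2 * α)
    have e3 := hle s'' 1
    exact mul_le_mul (mul_le_mul e1 e2 (hnn _ _) (Q_nonneg _ _ _)) e3 (hnn _ _)
      (mul_nonneg (Q_nonneg _ _ _) (Q_nonneg _ _ _))

theorem crit (h1 : S_HEL) (h2 : S_DEC) (hd : S_DET) (ht : S_TRI) (h3 : S_CSH) : S_CRIT := by
  classical
  refine ⟨48, by norm_num, ?_⟩
  intro α A Λ hα hA hΛ hsp S a hS ha hadm
  have hS0 : ∀ k ∈ S, k ≠ 0 := fun k hk h => hS.zero (h ▸ hk)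
  set X : ℝ := Q S (1 + 2 * α) a * Q S (2 * α) a * Q S 1 a with hX
  have hX0 : 0 ≤ X := mul_nonneg (mul_nonneg (Q_nonneg _ _ _) (Q_nonneg _ _ _)) (Q_nonneg _ _ _)
  -- the two kinds of terms
  set g : Bool → Bool → Bool → K3 → K3 → ℝ := fun s s' s'' p l =>
    if (p, l) ∈ TT Λ S s s' s'' then
      nm l * nm p * (hf a s p * hf a s' l * hf a s'' (p + l)) else 0 with hg
  have hg0 : ∀ s s' s'' p l, 0 ≤ g s s' s'' p l := by
    intro s s' s'' p l
    simp only [hg]
    split_ifs
    · exact mul_nonneg (mul_nonneg (nm_nonneg _) (nm_nonneg _))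
        (mul_nonneg (mul_nonneg (hf_nonneg _ _ _) (hf_nonneg _ _ _)) (hf_nonneg _ _ _))
    · exact le_rfl
  have hgsum : ∀ s s' s'', ∑ p ∈ S, ∑ l ∈ S, g s s' s'' p l =
      ∑ q ∈ TT Λ S s s' s'',
        nm q.2 * nm q.1 * (hf a s q.1 * hf a s' q.2 * hf a s'' (q.1 + q.2)) := by
    intro s s' s''
    rw [← Finset.sum_product', ← Finset.sum_filter_add_sum_filter_not (S ×ˢ S)
      (fun q => q ∈ TT Λ S s s' s'')]
    have e0 : ∑ q ∈ (S ×ˢ S).filter (fun q => ¬ q ∈ TT Λ S s s' s''), g s s' s'' q.1 q.2 = 0 := by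
      refine Finset.sum_eq_zero fun q hq => ?_
      have := (Finset.mem_filter.mp hq).2
      simp only [hg, Prod.mk.eta, if_neg this]
    rw [e0, add_zero]
    have e1 : (S ×ˢ S).filter (fun q => q ∈ TT Λ S s s' s'') = TT Λ S s s' s'' := by
      ext q
      simp only [Finset.mem_filter, and_iff_right_iff_imp]
      intro hq
      have := mem_TT.mp hq
      exact Finset.mem_product.mpr this.1
    rw [e1]
    refine Finset.sum_congr rfl fun q hq => ?_
    simp only [hg, Prod.mk.eta, if_pos hq]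
  -- pointwise bound
  have hpt : ∀ s, ∀ x ∈ S, ∀ y ∈ S, nm (x + y) * |nm x - nm y| *
      ‖dt (cr (hel s x (a x)) (hel s y (a y))) (hel (!s) (-(x + y)) (a (-(x + y))))‖ ≤
      4 * (g s (!s) s x (-(x + y)) + g s s (!s) y x + g s s (!s) x y) := by
    intro s x hx y hy
    have hx0 := hS0 x hx
    have hy0 := hS0 y hy
    have hRn : 0 ≤ 4 * (g s (!s) s x (-(x + y)) + g s s (!s) y x + g s s (!s) x y) := by
      have := hg0 s (!s) s x (-(x + y))
      have := hg0 s s (!s) y x
      have := hg0 s s (!s) x y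
      positivity
    by_cases hxy : x + y = 0
    · rw [hxy, nm_zero]
      simp only [hxy] at hRn
      simpa using hRn
    by_cases hz : hf a s x = 0 ∨ hf a s y = 0 ∨ hf a (!s) (x + y) = 0
    · -- the left side vanishes
      have hv : dt (cr (hel s x (a x)) (hel s y (a y))) (hel (!s) (-(x + y)) (a (-(x + y)))) = 0 := by
        rcases hz with hz | hz | hz
        · have : hel s x (a x) = 0 := norm_eq_zero.mp hz
          rw [this]
          simp [dt, cr]
          simp [Fin.sum_univ_three]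
        · have : hel s y (a y) = 0 := norm_eq_zero.mp hz
          rw [this]
          simp [dt, cr]
          simp [Fin.sum_univ_three]
        · have : hel (!s) (-(x + y)) (a (-(x + y))) = 0 := by
            have h := hf_neg h1 hadm.real (!s) hxy
            rw [hz] at h
            exact norm_eq_zero.mp h
          rw [this]
          simp [dt]
      rw [hv, norm_zero, mul_zero]
      exact hRn
    push Not at hz
    obtain ⟨z1, z2, z3⟩ := hz
    have mx : x ∈ Λ s := by
      by_contra h; exact z1 (hf_mem h2 hΛ hadm s h)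
    have my : y ∈ Λ s := by
      by_contra h; exact z2 (hf_mem h2 hΛ hadm s h)
    have mz : x + y ∈ Λ (!s) := by
      by_contra h; exact z3 (hf_mem h2 hΛ hadm (!s) h)
    have mzS : x + y ∈ S := by
      by_contra h; exact z3 (hf_supp ha (!s) h)
    have e1 := (h1 s x hx0 (a x) 0 0).2.2.2.2.1
    have e2 := (h1 s y hy0 (a y) 0 0).2.2.2.2.1
    have hzn : -(x + y) ≠ 0 := neg_ne_zero.mpr hxy
    have e3 := (h1 (!s) (-(x + y)) hzn (a (-(x + y))) 0 0).2.2.2.2.1
    have hD := hd s x y hx0 hy0 hxy _ _ _ e1 e2 e3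
    refine hD.trans ?_
    have e4 : ‖hel (!s) (-(x + y)) (a (-(x + y)))‖ = hf a (!s) (x + y) :=
      hf_neg h1 hadm.real (!s) hxy
    rw [e4]
    change 2 * (lo x y * hi x y * (hf a s x * hf a s y * hf a (!s) (x + y))) ≤ _
    have nx := nm_nonneg x
    have ny := nm_nonneg y
    have nz := nm_nonneg (x + y)
    have t1 := nm_add_le x y
    have t2 := nm_le_add x y
    have t3 : nm y ≤ nm (x + y) + nm x := by
      have := nm_le_add y x
      rwa [add_comm y x] at this
    have hF : 0 ≤ hf a s x * hf a s y * hf a (!s) (x + y) :=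
      mul_nonneg (mul_nonneg (hf_nonneg _ _ _) (hf_nonneg _ _ _)) (hf_nonneg _ _ _)
    rcases le_total (nm x) (nm y) with c1 | c1
    · rcases le_total (nm x) (nm (x + y)) with c2 | c2
      · -- x lowest
        have hm : (y, x) ∈ TT Λ S s s (!s) := by
          rw [mem_TT]
          refine ⟨⟨hy, hx⟩, ?_, c1, ?_, my, mx, ?_⟩
          · simpa [add_comm] using mzS
          · simpa [add_comm] using c2
          · simpa [add_comm] using mz
        have e5 : g s s (!s) y x = nm x * nm y * (hf a s y * hf a s x * hf a (!s) (y + x)) := by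
          simp only [hg, if_pos hm]
        have hlo : lo x y ≤ nm x := min_le_left _ _
        have hhi : hi x y ≤ 2 * nm y := by
          refine max_le (by linarith) (max_le (by linarith) (by linarith))
        have h6 : lo x y * hi x y ≤ nm x * (2 * nm y) :=
          mul_le_mul hlo hhi (hi_nonneg _ _) nx
        have g1 := hg0 s (!s) s x (-(x + y))
        have g2 := hg0 s s (!s) x y
        calc 2 * (lo x y * hi x y * (hf a s x * hf a s y * hf a (!s) (x + y)))
            ≤ 2 * (nm x * (2 * nm y) * (hf a s x * hf a s y * hf a (!s) (x + y))) := by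
              gcongr
          _ = 4 * g s s (!s) y x := by rw [e5, add_comm y x]; ring
          _ ≤ _ := by linarith
      · -- x + y lowest
        have hm : (x, -(x + y)) ∈ TT Λ S s (!s) s := by
          rw [mem_TT]
          have e : x + -(x + y) = -y := by abel
          refine ⟨⟨hx, hS.neg _ mzS⟩, ?_, ?_, ?_, mx, hΛ.neg _ _ mz, ?_⟩
          · show x + -(x + y) ∈ S
            rw [e]; exact hS.neg _ hy
          · show nm (-(x + y)) ≤ nm x
            rw [nm_neg]; exact c2
          · show nm (-(x + y)) ≤ nm (x + -(x + y))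
            rw [e, nm_neg, nm_neg]; exact c2.trans c1
          · show x + -(x + y) ∈ Λ s
            rw [e]; exact hΛ.neg _ _ my
        have e5 : g s (!s) s x (-(x + y)) =
            nm (x + y) * nm x * (hf a s x * hf a (!s) (x + y) * hf a s y) := by
          have e : x + -(x + y) = -y := by abel
          simp only [hg, if_pos hm]
          rw [e, nm_neg, hf_neg h1 hadm.real (!s) hxy, hf_neg h1 hadm.real s hy0]
        have hlo : lo x y ≤ nm (x + y) := (min_le_right _ _).trans (min_le_right _ _)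
        have hhi : hi x y ≤ 2 * nm x := by
          refine max_le (by linarith) (max_le (by linarith) (by linarith))
        have h6 : lo x y * hi x y ≤ nm (x + y) * (2 * nm x) :=
          mul_le_mul hlo hhi (hi_nonneg _ _) nz
        have g1 := hg0 s s (!s) y x
        have g2 := hg0 s s (!s) x y
        calc 2 * (lo x y * hi x y * (hf a s x * hf a s y * hf a (!s) (x + y)))
            ≤ 2 * (nm (x + y) * (2 * nm x) * (hf a s x * hf a s y * hf a (!s) (x + y))) := by
              gcongr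
          _ = 4 * g s (!s) s x (-(x + y)) := by rw [e5]; ring
          _ ≤ _ := by linarith
    · rcases le_total (nm y) (nm (x + y)) with c2 | c2
      · -- y lowest
        have hm : (x, y) ∈ TT Λ S s s (!s) := by
          rw [mem_TT]
          exact ⟨⟨hx, hy⟩, mzS, c1, c2, mx, my, mz⟩
        have e5 : g s s (!s) x y = nm y * nm x * (hf a s x * hf a s y * hf a (!s) (x + y)) := by
          simp only [hg, if_pos hm]
        have hlo : lo x y ≤ nm y := (min_le_right _ _).trans (min_le_left _ _)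
        have hhi : hi x y ≤ 2 * nm x := by
          refine max_le (by linarith) (max_le (by linarith) (by linarith))
        have h6 : lo x y * hi x y ≤ nm y * (2 * nm x) :=
          mul_le_mul hlo hhi (hi_nonneg _ _) ny
        have g1 := hg0 s (!s) s x (-(x + y))
        have g2 := hg0 s s (!s) y x
        calc 2 * (lo x y * hi x y * (hf a s x * hf a s y * hf a (!s) (x + y)))
            ≤ 2 * (nm y * (2 * nm x) * (hf a s x * hf a s y * hf a (!s) (x + y))) := by
              gcongr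
          _ = 4 * g s s (!s) x y := by rw [e5]; ring
          _ ≤ _ := by linarith
      · -- x + y lowest
        have hm : (x, -(x + y)) ∈ TT Λ S s (!s) s := by
          rw [mem_TT]
          have e : x + -(x + y) = -y := by abel
          refine ⟨⟨hx, hS.neg _ mzS⟩, ?_, ?_, ?_, mx, hΛ.neg _ _ mz, ?_⟩
          · show x + -(x + y) ∈ S
            rw [e]; exact hS.neg _ hy
          · show nm (-(x + y)) ≤ nm x
            rw [nm_neg]; exact c2.trans c1
          · show nm (-(x + y)) ≤ nm (x + -(x + y))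
            rw [e, nm_neg, nm_neg]; exact c2
          · show x + -(x + y) ∈ Λ s
            rw [e]; exact hΛ.neg _ _ my
        have e5 : g s (!s) s x (-(x + y)) =
            nm (x + y) * nm x * (hf a s x * hf a (!s) (x + y) * hf a s y) := by
          have e : x + -(x + y) = -y := by abel
          simp only [hg, if_pos hm]
          rw [e, nm_neg, hf_neg h1 hadm.real (!s) hxy, hf_neg h1 hadm.real s hy0]
        have hlo : lo x y ≤ nm (x + y) := (min_le_right _ _).trans (min_le_right _ _)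
        have hhi : hi x y ≤ 2 * nm x := by
          refine max_le (by linarith) (max_le (by linarith) (by linarith))
        have h6 : lo x y * hi x y ≤ nm (x + y) * (2 * nm x) :=
          mul_le_mul hlo hhi (hi_nonneg _ _) nz
        have g1 := hg0 s s (!s) y x
        have g2 := hg0 s s (!s) x y
        calc 2 * (lo x y * hi x y * (hf a s x * hf a s y * hf a (!s) (x + y)))
            ≤ 2 * (nm (x + y) * (2 * nm x) * (hf a s x * hf a s y * hf a (!s) (x + y))) := by
              gcongr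
          _ = 4 * g s (!s) s x (-(x + y)) := by rw [e5]; ring
          _ ≤ _ := by linarith
  -- sums
  have hR1 : ∀ s, ∑ x ∈ S, ∑ y ∈ S, g s (!s) s x (-(x + y)) ≤
      ∑ p ∈ S, ∑ l ∈ S, g s (!s) s p l := by
    intro s
    refine Finset.sum_le_sum fun x hx => ?_
    have hinj : Set.InjOn (fun y : K3 => -(x + y)) (S : Set K3) := by
      intro y _ y' _ h
      have : -(x + y) = -(x + y') := h
      simpa using this
    rw [← Finset.sum_image (f := fun l => g s (!s) s x l) (g := fun y : K3 => -(x + y)) hinj]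
    rw [← Finset.sum_filter_add_sum_filter_not (S.image fun y : K3 => -(x + y)) (fun l => l ∈ S)]
    have e0 : ∑ l ∈ (S.image fun y : K3 => -(x + y)).filter (fun l => ¬ l ∈ S),
        g s (!s) s x l = 0 := by
      refine Finset.sum_eq_zero fun l hl => ?_
      have hl' := (Finset.mem_filter.mp hl).2
      have : (x, l) ∉ TT Λ S s (!s) s := fun h => hl' (mem_TT.mp h).1.2
      simp only [hg, if_neg this]
    rw [e0, add_zero]
    refine Finset.sum_le_sum_of_subset_of_nonneg ?_ fun l _ _ => hg0 _ _ _ _ _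
    intro l hl
    exact (Finset.mem_filter.mp hl).2
  have hcomm : ∀ s, ∑ x ∈ S, ∑ y ∈ S, g s s (!s) y x = ∑ p ∈ S, ∑ l ∈ S, g s s (!s) p l :=
    fun s => Finset.sum_comm
  have hsq : Real.sqrt (2 * A * X) ≤ 2 * Real.sqrt (A * X) := by
    have : 2 * Real.sqrt (A * X) = Real.sqrt (4 * (A * X)) := by
      rw [Real.sqrt_mul (by norm_num : (0 : ℝ) ≤ 4)]
      congr 1
      rw [show (4 : ℝ) = 2 ^ 2 by norm_num, Real.sqrt_sq (by norm_num)]
    rw [this]
    refine Real.sqrt_le_sqrt ?_
    have := mul_nonneg hA hX0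
    nlinarith
  have hfin : ∀ s : Bool, ∑ x ∈ S, ∑ y ∈ S, nm (x + y) * |nm x - nm y| *
      ‖dt (cr (hel s x (a x)) (hel s y (a y))) (hel (!s) (-(x + y)) (a (-(x + y))))‖ ≤
      24 * Real.sqrt (A * X) := by
    intro s
    calc ∑ x ∈ S, ∑ y ∈ S, nm (x + y) * |nm x - nm y| *
          ‖dt (cr (hel s x (a x)) (hel s y (a y))) (hel (!s) (-(x + y)) (a (-(x + y))))‖
        ≤ ∑ x ∈ S, ∑ y ∈ S, 4 * (g s (!s) s x (-(x + y)) + g s s (!s) y x + g s s (!s) x y) :=
          Finset.sum_le_sum fun x hx => Finset.sum_le_sum fun y hy => hpt s x hx y hy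
      _ = 4 * (∑ x ∈ S, ∑ y ∈ S, g s (!s) s x (-(x + y)) + ∑ x ∈ S, ∑ y ∈ S, g s s (!s) y x
            + ∑ x ∈ S, ∑ y ∈ S, g s s (!s) x y) := by
          simp only [← Finset.mul_sum, Finset.sum_add_distrib]
      _ ≤ 4 * (Real.sqrt (2 * A * X) + Real.sqrt (2 * A * X) + Real.sqrt (2 * A * X)) := by
          have b1 := tt_le h1 h3 hA hsp hS ha s (!s) s (Or.inl ⟨rfl, rfl⟩)
          have b2 := tt_le h1 h3 hA hsp hS ha s s (!s) (Or.inr ⟨rfl, rfl⟩)
          rw [← hgsum] at b1 b2
          have b3 := (hR1 s).trans b1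
          have b4 := (hcomm s).le.trans b2
          linarith
      _ ≤ 24 * Real.sqrt (A * X) := by linarith
  refine (ht S a hS ha).trans ?_
  rw [Fintype.sum_bool]
  have := hfin true
  have := hfin false
  linarith

end Pool.Agent.W229.HD
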