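import Pool.Agent.W229.HD.Basic

/-!
Balance equations for finitely many modes.
-/

set_option autoImplicit false
set_option linter.all false

open MeasureTheory Set Filter Topology

namespace Pool.Agent.W229.HD

theorem nl_eq_cv {S : Finset K3} {a : K3 → E3} (h : ∀ k, k ∉ S → a k = 0) (k : K3) :
    nl a k = cv S a k := by
  unfold nl cv
  refine tsum_eq_sum fun l hl => ?_
  have : dt (a l) (kc (k - l)) = 0 := by
    rw [h l hl]
    simp [dt]
  rw [this]
  simp

theorem dt_cj (v w : E3) : dt v (cj w) = inner ℂ w v := by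
  rw [PiLp.inner_apply]
  unfold dt cj
  refine Finset.sum_congr rfl fun j _ => ?_
  simp [mul_comm]

theorem dq (hD : S_DEC) : S_DQ := by
  classical
  intro α ν Λ a S hΛ hS hsol
  have hFr : Fr S := ⟨fun h => by
      rcases (hS 0).mp h with h | h
      · exact hΛ.zero _ h
      · exact hΛ.zero _ h, fun k hk => by
      rcases (hS k).mp hk with h | h
      · exact (hS (-k)).mpr (Or.inl (hΛ.neg _ _ h))
      · exact (hS (-k)).mpr (Or.inr (hΛ.neg _ _ h))⟩
  have hFld : ∀ t, 0 ≤ t → Fld S (a t) := by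
    intro t ht
    refine ⟨fun k hk => ?_, (hsol.adm t ht).real, fun k => ?_⟩
    · rw [← (hsol.adm t ht).mem k]
      have h1 : k ∉ Λ true := fun h => hk ((hS k).mpr (Or.inl h))
      have h2 : k ∉ Λ false := fun h => hk ((hS k).mpr (Or.inr h))
      exact (hD Λ hΛ k (a t k) 0 0 true).2.2.2.2.2.2.2.1 h1 h2
    · rw [← (hsol.adm t ht).mem k]
      exact (hD Λ hΛ k (a t k) 0 0 true).2.2.1
  refine ⟨hFr, hFld, fun r t ht => ?_⟩
  have hF := hFld t ht
  have hk : ∀ k ∈ S, HasDerivWithinAt (fun τ => nm k ^ r * ‖a τ k‖ ^ 2)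
      (nm k ^ r * (-2 * ν * (nm k ^ (2 * α) * ‖a t k‖ ^ 2) -
        2 * (dt (cv S (a t) k) (a t (-k))).re)) (Ici 0) t := by
    intro k _
    have h1 := hsol.eqn t ht k
    have h2 := (h1.inner ℂ h1)
    have h3 : HasDerivWithinAt (fun τ => (inner ℂ (a τ k) (a τ k) : ℂ).re) _ (Ici 0) t :=
      (Complex.reCLM.hasFDerivAt.comp_hasDerivWithinAt t h2)
    have h4 : (fun τ => (inner ℂ (a τ k) (a τ k) : ℂ).re) = fun τ => ‖a τ k‖ ^ 2 := by
      funext τ
      rw [inner_self_eq_norm_sq_to_K]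
      norm_cast
    rw [h4] at h3
    refine (h3.const_mul (nm k ^ r)).congr_deriv ?_
    congr 1
    rw [Complex.reCLM_apply, Complex.add_re]
    set X : E3 := -(((ν * nm k ^ (2 * α) : ℝ) : ℂ) • a t k) - dec Λ k (nl (a t) k) with hX
    have h5 : (inner ℂ X (a t k) : ℂ).re = (inner ℂ (a t k) X : ℂ).re := by
      rw [← inner_conj_symm (a t k) X]
      exact (Complex.conj_re _).symm
    rw [h5]
    have h6 : (inner ℂ (a t k) (dec Λ k (nl (a t) k)) : ℂ) = inner ℂ (a t k) (nl (a t) k) := by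
      rw [← (hD Λ hΛ k (a t k) (nl (a t) k) 0 true).2.2.2.2.2.1, (hsol.adm t ht).mem k]
    have h7 : (inner ℂ (a t k) X : ℂ).re =
        -(ν * nm k ^ (2 * α) * ‖a t k‖ ^ 2) - (inner ℂ (a t k) (nl (a t) k) : ℂ).re := by
      rw [hX, inner_sub_right, h6, inner_neg_right, inner_smul_right, inner_self_eq_norm_sq_to_K,
        Complex.sub_re, Complex.neg_re]
      have h8 : ((((ν * nm k ^ (2 * α) : ℝ) : ℂ)) * ((‖a t k‖ : ℝ) : ℂ) ^ 2).re =
          ν * nm k ^ (2 * α) * ‖a t k‖ ^ 2 := by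
        rw [← Complex.ofReal_pow, ← Complex.ofReal_mul, Complex.ofReal_re]
      rw [← h8]
      rfl
    rw [h7, (hsol.adm t ht).real k, dt_cj, nl_eq_cv hF.supp k]
    ring
  have hsum := HasDerivWithinAt.fun_sum (u := S) hk
  unfold Q
  refine hsum.congr_deriv ?_
  unfold Pr
  rw [Complex.re_sum, Finset.mul_sum, Finset.mul_sum, ← Finset.sum_sub_distrib]
  refine Finset.sum_congr rfl fun k hk' => ?_
  have hk0 : 0 < nm k := nm_pos fun h => hFr.zero (h ▸ hk')
  rw [Real.rpow_add hk0, Complex.re_ofReal_mul]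
  ring

end Pool.Agent.W229.HD
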