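import Mathlib

/-!
Project HD.  The Navier-Stokes equations on the torus `(ℝ/2πℤ)³` restricted to a set of helical
modes (decimated equations), in terms of Fourier coefficients.

`u(x) = ∑_k a(k) exp(i k·x)`; the coefficient `a(k) ∈ ℂ³`, `k·a(k) = 0`, is the sum of its two helical
parts, `i k × v = |k| v` (sign `true`) and `i k × v = -|k| v` (sign `false`).  `Λ true` and `Λ false`
are the sets of the frequencies at which the part of sign `true`, `false` is kept.
-/

set_option autoImplicit false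

namespace Pool.Agent.W229.HD

noncomputable section

/-- frequencies -/
abbrev K3 : Type := Fin 3 → ℤ

/-- Fourier coefficients of vector fields -/
abbrev E3 : Type := EuclideanSpace ℂ (Fin 3)

/-- the length `|k|` of a frequency -/
def nm (k : K3) : ℝ := Real.sqrt (∑ j, (k j : ℝ) ^ 2)

/-- a frequency as a complex vector -/
def kc (k : K3) : E3 := WithLp.toLp 2 fun j => ((k j : ℤ) : ℂ)

/-- the bilinear scalar product `∑ v_j w_j` (no conjugation) -/
def dt (v w : E3) : ℂ := ∑ j, v j * w j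

/-- the vector product (bilinear) -/
def cr (v w : E3) : E3 :=
  WithLp.toLp 2 ![v 1 * w 2 - v 2 * w 1, v 2 * w 0 - v 0 * w 2, v 0 * w 1 - v 1 * w 0]

/-- complex conjugation of the coordinates -/
def cj (v : E3) : E3 := WithLp.toLp 2 fun j => star (v j)

/-- the signs: `1` for `true`, `-1` for `false` -/
def sg (s : Bool) : ℝ := if s then 1 else -1

/-- the part of sign `s` of a coefficient at the frequency `k ≠ 0`:
`(1/2) (v - (k·v / |k|²) k + s (i / |k|) k × v)`, the orthogonal projection onto the line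
`{v | i k × v = s |k| v}` -/
def hel (s : Bool) (k : K3) (v : E3) : E3 :=
  (1 / 2 : ℂ) • (v - (dt (kc k) v / ((nm k ^ 2 : ℝ) : ℂ)) • kc k
    + (Complex.I * ((sg s / nm k : ℝ) : ℂ)) • cr (kc k) v)

open Classical in
/-- the decimation: at the frequency `k` the parts of the signs `s` with `k ∈ Λ s` are kept -/
def dec (Λ : Bool → Set K3) (k : K3) (v : E3) : E3 := ∑ s : Bool, if k ∈ Λ s then hel s k v else 0

/-- The Fourier coefficients of `(u·∇)u`, `u = ∑_k a(k) exp(i k·x)`. -/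
def nl (a : K3 → E3) (k : K3) : E3 := ∑' l : K3, (Complex.I * dt (a l) (kc (k - l))) • a (k - l)

/-- Mode sets: nonzero frequencies, symmetric (the fields are real). -/
structure Modes (Λ : Bool → Set K3) : Prop where
  zero : ∀ s, (0 : K3) ∉ Λ s
  neg : ∀ s k, k ∈ Λ s → -k ∈ Λ s

/-- Coefficients of real fields all whose modes are in `Λ`. -/
structure Adm (Λ : Bool → Set K3) (a : K3 → E3) : Prop where
  real : ∀ k, a (-k) = cj (a k)
  mem : ∀ k, dec Λ k (a k) = a k

/-- `u` is a smooth function: the coefficients decay faster than any power of `|k|`. -/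
def Rapid (a : K3 → E3) : Prop := ∀ m : ℕ, ∃ C : ℝ, ∀ k, nm k ^ m * ‖a k‖ ≤ C

/-- Smooth solutions on `[0, ∞)` of the decimated equations
`∂_t u = - ν (-Δ)^α u - 𝒟 ((u·∇)u)`, `u = 𝒟 u`, `𝒟` the decimation: `a'(k) = - ν |k|^(2α) a(k) -
𝒟_k (nl a k)`, with bounds for all powers of `|k|` on bounded intervals of time. -/
structure IsSol (α ν : ℝ) (Λ : Bool → Set K3) (a : ℝ → K3 → E3) : Prop where
  adm : ∀ t, 0 ≤ t → Adm Λ (a t)
  bdd : ∀ (T : ℝ) (m : ℕ), ∃ C : ℝ, ∀ t ∈ Set.Icc 0 T, ∀ k, nm k ^ m * ‖a t k‖ ≤ C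
  eqn : ∀ t, 0 ≤ t → ∀ k, HasDerivWithinAt (fun τ => a τ k)
    (-(((ν * nm k ^ (2 * α) : ℝ) : ℂ) • a t k) - dec Λ k (nl (a t) k)) (Set.Ici 0) t

/-- The decimated equations with the modes `Λ` are globally regular: for all `ν > 0`, every smooth
field with modes in `Λ` is the initial value of exactly one smooth solution on `[0, ∞)`, and all its
norms are bounded on `[0, ∞)`. -/
def GlobReg (α : ℝ) (Λ : Bool → Set K3) : Prop :=
  ∀ ν : ℝ, 0 < ν → ∀ a₀ : K3 → E3, Adm Λ a₀ → Rapid a₀ →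
    ∃ a : ℝ → K3 → E3, IsSol α ν Λ a ∧ a 0 = a₀ ∧
      (∀ m : ℕ, ∃ C : ℝ, ∀ t, 0 ≤ t → ∀ k, nm k ^ m * ‖a t k‖ ≤ C) ∧
      ∀ b : ℝ → K3 → E3, IsSol α ν Λ b → b 0 = a₀ → ∀ t, 0 ≤ t → b t = a t

/-- The frequencies `l` with `|l| ≤ |p|` which form a heterochiral triad `p, l, -(p+l)` with the mode
`p` of sign `s`: one of `l`, `-(p+l)` is a mode of sign `s`, the other one of the opposite sign. -/
def Het (Λ : Bool → Set K3) (s : Bool) (p : K3) : Set K3 :=
  {l | nm l ≤ nm p ∧ ((l ∈ Λ (!s) ∧ p + l ∈ Λ s) ∨ (l ∈ Λ s ∧ p + l ∈ Λ (!s)))}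

/-- Few heterochiral triads: `∑ |l|^(2-2α) ≤ A |p|^(2α)`, the sum over `Het Λ s p`; for `α = 1` this
says that there are at most `A |p|²` of them. -/
def Sparse (α : ℝ) (Λ : Bool → Set K3) (A : ℝ) : Prop :=
  ∀ s, ∀ p ∈ Λ s, ∀ F : Finset K3, (∀ l ∈ F, l ∈ Het Λ s p) →
    ∑ l ∈ F, nm l ^ (2 - 2 * α) ≤ A * nm p ^ (2 * α)

end

end Pool.Agent.W229.HD
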