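import Pool.Agent.W229.HD.Basic

/-!
Global regularity from the parts.
-/

set_option autoImplicit false
set_option linter.all false

open MeasureTheory Set Filter Topology

namespace Pool.Agent.W229.HD

theorem abs_le_nm (k : K3) (j : Fin 3) : |(k j : ℝ)| ≤ nm k := by
  unfold nm
  refine Real.abs_le_sqrt ?_
  exact Finset.single_le_sum (f := fun j => (k j : ℝ) ^ 2) (fun i _ => sq_nonneg _)
    (Finset.mem_univ j)

theorem finite_ball (n : ℕ) : {k : K3 | nm k ≤ n}.Finite := by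
  refine Set.Finite.subset (Set.Finite.pi (t := fun _ : Fin 3 => Set.Icc (-(n : ℤ)) (n : ℤ))
    (fun _ => Set.finite_Icc _ _)) ?_
  intro k hk j _
  have h := (abs_le_nm k j).trans hk
  have h2 := abs_le.mp h
  constructor
  · have := h2.1
    exact_mod_cast this
  · have := h2.2
    exact_mod_cast this

theorem dec_congr {Λ Λ' : Bool → Set K3} {k : K3} (h : ∀ s, k ∈ Λ s ↔ k ∈ Λ' s) (v : E3) :
    dec Λ k v = dec Λ' k v := by
  unfold dec
  refine Finset.sum_congr rfl fun s _ => ?_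
  by_cases hk : k ∈ Λ s
  · rw [if_pos hk, if_pos ((h s).mp hk)]
  · rw [if_neg hk, if_neg fun h' => hk ((h s).mpr h')]

theorem Sparse.mono {α A : ℝ} {Λ Λ' : Bool → Set K3} (hs : Sparse α Λ A)
    (h : ∀ s k, k ∈ Λ' s → k ∈ Λ s) : Sparse α Λ' A := by
  intro s p hp F hF
  refine hs s p (h s p hp) F fun l hl => ?_
  obtain ⟨h1, h2⟩ := hF l hl
  refine ⟨h1, ?_⟩
  rcases h2 with ⟨h3, h4⟩ | ⟨h3, h4⟩
  · exact Or.inl ⟨h _ _ h3, h _ _ h4⟩
  · exact Or.inr ⟨h _ _ h3, h _ _ h4⟩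

theorem main (hD : S_DEC) (hU : S_UNI) (hO : S_ODE) (hL : S_LIM) (hQ : S_UNIQ) : S_MAIN := by
  intro α A Λ hα hA hΛ hSp ν hν a₀ hA0 hR
  set L : ℕ → Bool → Set K3 := fun n s => {k | k ∈ Λ s ∧ nm k ≤ n} with hLdef
  have hLM : ∀ n, Modes (L n) := fun n =>
    ⟨fun s h => hΛ.zero s h.1, fun s k hk => ⟨hΛ.neg s k hk.1, by rw [nm_neg]; exact hk.2⟩⟩
  have hLfin : ∀ n s, (L n s).Finite := fun n s => (finite_ball n).subset fun k hk => hk.2
  have hLsp : ∀ n, Sparse α (L n) A := fun n => hSp.mono fun s k hk => hk.1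
  set a0 : ℕ → K3 → E3 := fun n k => dec (L n) k (a₀ k) with ha0
  have hAdm : ∀ n, Adm (L n) (a0 n) := by
    intro n
    refine ⟨fun k => ?_, fun k => ?_⟩
    · have h := hD (L n) (hLM n) k (a₀ k) (a₀ k) 0 true
      show dec (L n) (-k) (a₀ (-k)) = cj (dec (L n) k (a₀ k))
      rw [hA0.real k]
      exact h.2.2.2.2.1
    · exact (hD (L n) (hLM n) k (a₀ k) (a₀ k) 0 true).2.2.2.1
  choose b hb0 hbs using fun n => hO α ν (L n) hν (hLM n) (hLfin n) (a0 n) (hAdm n)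
  choose M hM using hR
  have hbM : ∀ n (j : ℕ) (k : K3), nm k ^ j * ‖b n 0 k‖ ≤ M j := by
    intro n j k
    rw [hb0 n]
    refine le_trans ?_ (hM j k)
    refine mul_le_mul_of_nonneg_left ?_ (pow_nonneg (nm_nonneg k) j)
    exact (hD (L n) (hLM n) k (a₀ k) (a₀ k) 0 true).2.2.2.2.2.2.1
  have hbd : ∀ m : ℕ, ∃ C : ℝ, ∀ n t, 0 ≤ t → ∀ k, nm k ^ m * ‖b n t k‖ ≤ C := by
    intro m
    obtain ⟨C, hC⟩ := hU α ν A hα hν hA M m
    exact ⟨C, fun n t ht k => hC (L n) (b n) (hLM n) (hLfin n) (hLsp n) (hbs n) (hbM n) t ht k⟩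
  have hev : ∀ k, ∀ᶠ n in atTop, b n 0 k = a₀ k := by
    intro k
    obtain ⟨N, hN⟩ := exists_nat_ge (nm k)
    refine eventually_atTop.mpr ⟨N, fun n hn => ?_⟩
    rw [hb0 n]
    show dec (L n) k (a₀ k) = a₀ k
    rw [← hA0.mem k]
    have h1 : dec (L n) k (dec Λ k (a₀ k)) = dec Λ k (dec Λ k (a₀ k)) := by
      refine dec_congr (fun s => ?_) _
      constructor
      · exact fun h => h.1
      · exact fun h => ⟨h, hN.trans (by exact_mod_cast hn)⟩
    rw [h1, hA0.mem k, hA0.mem k]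
  obtain ⟨a, ha, ha0', habd⟩ := hL α ν Λ a₀ hν hΛ hA0 L b (fun n s k => Iff.rfl) hbs hev hbd
  refine ⟨a, ha, ha0', habd, fun b' hb' hb0' t ht => ?_⟩
  exact hQ α ν Λ a b' hα hν hΛ ha hb' (ha0'.trans hb0'.symm) t ht

end Pool.Agent.W229.HD
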