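import Pool.Agent.W229.HD.Defs

/-!
Project HD: statements of the parts.
-/

set_option autoImplicit false
set_option linter.all false

open MeasureTheory Set Filter Topology

namespace Pool.Agent.W229.HD

noncomputable section

/-! ### finite sets of frequencies -/

/-- finite symmetric sets of nonzero frequencies -/
structure Fr (S : Finset K3) : Prop where
  zero : (0 : K3) ∉ S
  neg : ∀ k ∈ S, -k ∈ S

/-- coefficients of real divergence free fields with frequencies in `S` -/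
structure Fld (S : Finset K3) (a : K3 → E3) : Prop where
  supp : ∀ k, k ∉ S → a k = 0
  real : ∀ k, a (-k) = cj (a k)
  div : ∀ k, dt (kc k) (a k) = 0

/-- the nonlinear term as a finite sum -/
def cv (S : Finset K3) (a : K3 → E3) (k : K3) : E3 :=
  ∑ l ∈ S, (Complex.I * dt (a l) (kc (k - l))) • a (k - l)

/-- `∑ |k|^r |a(k)|²` -/
def Q (S : Finset K3) (r : ℝ) (a : K3 → E3) : ℝ := ∑ k ∈ S, nm k ^ r * ‖a k‖ ^ 2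

/-- the production of `∑ |k|^r |a(k)|²` by the nonlinear term -/
def Pr (S : Finset K3) (r : ℝ) (a : K3 → E3) : ℝ :=
  (∑ k ∈ S, ((nm k ^ r : ℝ) : ℂ) * dt (cv S a k) (a (-k))).re

/-- the smallest of the three lengths -/
def lo (x y : K3) : ℝ := min (nm x) (min (nm y) (nm (x + y)))

/-- the largest of the three lengths -/
def hi (x y : K3) : ℝ := max (nm x) (max (nm y) (nm (x + y)))

/-! ### algebra -/

/-- HEL: algebra of the helical parts -/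
def S_HEL : Prop := ∀ (s : Bool) (k : K3), k ≠ 0 → ∀ (v w : E3) (c : ℂ),
  hel s k (v + w) = hel s k v + hel s k w ∧ hel s k (c • v) = c • hel s k v ∧
  dt (kc k) (hel s k v) = 0 ∧
  cr (kc k) (hel s k v) = (-(Complex.I * ((sg s * nm k : ℝ) : ℂ))) • hel s k v ∧
  hel s k (hel s k v) = hel s k v ∧ hel (!s) k (hel s k v) = 0 ∧
  (dt (kc k) v = 0 → hel true k v + hel false k v = v) ∧
  hel s (-k) (cj v) = cj (hel s k v) ∧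
  inner ℂ (hel s k v) w = inner ℂ v (hel s k w) ∧
  ‖hel true k v‖ ^ 2 + ‖hel false k v‖ ^ 2 ≤ ‖v‖ ^ 2

/-- DEC: algebra of the decimation -/
def S_DEC : Prop := ∀ (Λ : Bool → Set K3), Modes Λ → ∀ (k : K3) (v w : E3) (c : ℂ) (s : Bool),
  dec Λ k (v + w) = dec Λ k v + dec Λ k w ∧ dec Λ k (c • v) = c • dec Λ k v ∧
  dt (kc k) (dec Λ k v) = 0 ∧ dec Λ k (dec Λ k v) = dec Λ k v ∧
  dec Λ (-k) (cj v) = cj (dec Λ k v) ∧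
  inner ℂ (dec Λ k v) w = inner ℂ v (dec Λ k w) ∧ ‖dec Λ k v‖ ≤ ‖v‖ ∧
  (k ∉ Λ true → k ∉ Λ false → dec Λ k v = 0) ∧
  (k ∉ Λ s → hel s k (dec Λ k v) = 0)

/-- DET: the size of the coupling of a heterochiral triad -/
def S_DET : Prop := ∀ (s : Bool) (x y : K3), x ≠ 0 → y ≠ 0 → x + y ≠ 0 → ∀ u v w : E3,
  hel s x u = u → hel s y v = v → hel (!s) (-(x + y)) w = w →
  nm (x + y) * |nm x - nm y| * ‖dt (cr u v) w‖ ≤ 2 * (lo x y * hi x y * (‖u‖ * ‖v‖ * ‖w‖))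

/-- TRI: the production of `∑ |k| |a(k)|²` is due to the heterochiral triads -/
def S_TRI : Prop := ∀ (S : Finset K3) (a : K3 → E3), Fr S → Fld S a →
  |Pr S 1 a| ≤ ∑ s : Bool, ∑ x ∈ S, ∑ y ∈ S, nm (x + y) * |nm x - nm y| *
    ‖dt (cr (hel s x (a x)) (hel s y (a y))) (hel (!s) (-(x + y)) (a (-(x + y))))‖

/-- ENE: no production of energy -/
def S_ENE : Prop := ∀ (S : Finset K3) (a : K3 → E3), Fr S → Fld S a → Pr S 0 a = 0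

/-- ANT: the production of `∑ |k|^(2m) |a(k)|²` -/
def S_ANT : Prop := ∀ m : ℕ, 1 ≤ m → ∃ C : ℝ, 0 ≤ C ∧
  ∀ (S : Finset K3) (a : K3 → E3), Fr S → Fld S a →
    |Pr S (2 * m : ℕ) a| ≤
      C * ∑ x ∈ S, ∑ y ∈ S, lo x y * hi x y ^ (2 * m) * (‖a x‖ * ‖a y‖ * ‖a (x + y)‖)

/-! ### sums over frequencies -/

/-- LAT: lattice sums -/
def S_LAT : Prop := ∃ C : ℝ, 0 ≤ C ∧
  (∀ (F : Finset K3) (R : ℝ), 1 ≤ R → (∀ l ∈ F, l ≠ 0 ∧ nm l ≤ R) →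
    ∑ l ∈ F, (nm l)⁻¹ ≤ C * R ^ 2) ∧
  (∀ F : Finset K3, (∀ l ∈ F, l ≠ 0) → ∑ l ∈ F, (nm l ^ 4)⁻¹ ≤ C) ∧
  Summable fun k : K3 => ((1 + nm k) ^ 4)⁻¹

/-- CSH: Cauchy-Schwarz for sparse sets of triads -/
def S_CSH : Prop := ∀ (α B : ℝ), 0 ≤ B → ∀ (S : Finset K3), (∀ k ∈ S, k ≠ 0) →
  ∀ (f g h : K3 → ℝ), (∀ k, 0 ≤ f k) → (∀ k, 0 ≤ g k) → (∀ k, 0 ≤ h k) →
  ∀ T : Finset (K3 × K3),
    (∀ q ∈ T, q.1 ∈ S ∧ q.2 ∈ S ∧ q.1 + q.2 ∈ S ∧ nm q.1 ≤ 2 * nm (q.1 + q.2)) →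
    (∀ p ∈ S, ∀ F : Finset K3, (∀ l ∈ F, (p, l) ∈ T) →
      ∑ l ∈ F, nm l ^ (2 - 2 * α) ≤ B * nm p ^ (2 * α)) →
    ∑ q ∈ T, nm q.2 * nm q.1 * (f q.1 * g q.2 * h (q.1 + q.2)) ≤
      Real.sqrt (2 * B * ((∑ k ∈ S, nm k ^ (1 + 2 * α) * f k ^ 2) *
        (∑ k ∈ S, nm k ^ (2 * α) * g k ^ 2) * (∑ k ∈ S, nm k ^ (1 : ℝ) * h k ^ 2)))

/-- CSM: Cauchy-Schwarz for all triads -/
def S_CSM : Prop := ∀ m : ℕ, 1 ≤ m → ∃ C : ℝ, 0 ≤ C ∧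
  ∀ (S : Finset K3), Fr S → ∀ f : K3 → ℝ, (∀ k, 0 ≤ f k) → (∀ k, f (-k) = f k) →
    (∀ k, k ∉ S → f k = 0) →
    ∑ x ∈ S, ∑ y ∈ S, lo x y * hi x y ^ (2 * m) * (f x * f y * f (x + y)) ≤
      C * Real.sqrt ((∑ k ∈ S, nm k ^ (3 : ℝ) * f k ^ 2) *
        (∑ k ∈ S, nm k ^ ((2 * m : ℕ) : ℝ) * f k ^ 2) *
        (∑ k ∈ S, nm k ^ ((2 * m + 2 : ℕ) : ℝ) * f k ^ 2))

/-! ### the two main estimates -/

/-- HIGH -/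
def S_HIGH : Prop := ∀ m : ℕ, 1 ≤ m → ∃ C : ℝ, 0 ≤ C ∧
  ∀ (S : Finset K3) (a : K3 → E3), Fr S → Fld S a →
    |Pr S (2 * m : ℕ) a| ≤
      C * Real.sqrt (Q S 3 a * Q S (2 * m : ℕ) a * Q S (2 * m + 2 : ℕ) a)

/-- CRIT -/
def S_CRIT : Prop := ∃ C : ℝ, 0 ≤ C ∧ ∀ (α A : ℝ) (Λ : Bool → Set K3), 1 ≤ α → 0 ≤ A → Modes Λ →
  Sparse α Λ A → ∀ (S : Finset K3) (a : K3 → E3), Fr S → Fld S a → Adm Λ a →
    |Pr S 1 a| ≤ C * Real.sqrt (A * (Q S (1 + 2 * α) a * Q S (2 * α) a * Q S 1 a))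

/-! ### differential equations -/

/-- ODE: the equations with finitely many modes -/
def S_ODE : Prop := ∀ (α ν : ℝ) (Λ : Bool → Set K3), 0 < ν → Modes Λ → (∀ s, (Λ s).Finite) →
  ∀ a₀ : K3 → E3, Adm Λ a₀ → ∃ a : ℝ → K3 → E3, a 0 = a₀ ∧ IsSol α ν Λ a

/-- DQ: balance equations, finitely many modes -/
def S_DQ : Prop := ∀ (α ν : ℝ) (Λ : Bool → Set K3) (a : ℝ → K3 → E3) (S : Finset K3),
  Modes Λ → (∀ k, k ∈ S ↔ k ∈ Λ true ∨ k ∈ Λ false) → IsSol α ν Λ a →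
  Fr S ∧ (∀ t, 0 ≤ t → Fld S (a t)) ∧
  ∀ r : ℝ, ∀ t, 0 ≤ t → HasDerivWithinAt (fun τ => Q S r (a τ))
    (-2 * ν * Q S (r + 2 * α) (a t) - 2 * Pr S r (a t)) (Ici 0) t

/-- GRON: a scalar inequality -/
def S_GRON : Prop := ∀ (ν c G : ℝ) (y z g d : ℝ → ℝ), 0 < ν → 0 ≤ c → 0 ≤ G →
  (∀ t, 0 ≤ t → 0 ≤ y t ∧ 0 ≤ z t ∧ 0 ≤ g t) → ContinuousOn z (Ici 0) →
  ContinuousOn g (Ici 0) → (∀ t, 0 ≤ t → HasDerivWithinAt y (d t) (Ici 0) t) →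
  (∀ t, 0 ≤ t → d t ≤ -2 * ν * z t + 2 * c * Real.sqrt (z t * g t * y t)) →
  (∀ t, 0 ≤ t → ∫ τ in (0 : ℝ)..t, g τ ≤ G) →
  ∀ t, 0 ≤ t → y t ≤ y 0 * Real.exp (c ^ 2 * G / ν) ∧
    ν * ∫ τ in (0 : ℝ)..t, z τ ≤ y 0 * (1 + c ^ 2 * G / ν * Real.exp (c ^ 2 * G / ν))

/-- UNI: bounds independent of the number of the modes -/
def S_UNI : Prop := ∀ (α ν A : ℝ), 1 ≤ α → 0 < ν → 0 ≤ A → ∀ (M : ℕ → ℝ) (m : ℕ), ∃ C : ℝ,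
  ∀ (Λ : Bool → Set K3) (a : ℝ → K3 → E3), Modes Λ → (∀ s, (Λ s).Finite) → Sparse α Λ A →
    IsSol α ν Λ a → (∀ (j : ℕ) (k : K3), nm k ^ j * ‖a 0 k‖ ≤ M j) →
    ∀ t, 0 ≤ t → ∀ k, nm k ^ m * ‖a t k‖ ≤ C

/-- LIM: the limit of many modes -/
def S_LIM : Prop := ∀ (α ν : ℝ) (Λ : Bool → Set K3) (a₀ : K3 → E3), 0 < ν → Modes Λ →
  Adm Λ a₀ → ∀ (L : ℕ → Bool → Set K3) (b : ℕ → ℝ → K3 → E3),
  (∀ n s k, k ∈ L n s ↔ k ∈ Λ s ∧ nm k ≤ n) → (∀ n, IsSol α ν (L n) (b n)) →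
  (∀ k, ∀ᶠ n in atTop, b n 0 k = a₀ k) →
  (∀ m : ℕ, ∃ C : ℝ, ∀ n t, 0 ≤ t → ∀ k, nm k ^ m * ‖b n t k‖ ≤ C) →
  ∃ a : ℝ → K3 → E3, IsSol α ν Λ a ∧ a 0 = a₀ ∧
    ∀ m : ℕ, ∃ C : ℝ, ∀ t, 0 ≤ t → ∀ k, nm k ^ m * ‖a t k‖ ≤ C

/-- UNIQ: uniqueness -/
def S_UNIQ : Prop := ∀ (α ν : ℝ) (Λ : Bool → Set K3) (a b : ℝ → K3 → E3), 1 ≤ α → 0 < ν →
  Modes Λ → IsSol α ν Λ a → IsSol α ν Λ b → a 0 = b 0 → ∀ t, 0 ≤ t → b t = a t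

/-! ### examples -/

/-- TWO: few modes of one sign -/
def S_TWO : Prop := ∀ (α A : ℝ), 1 ≤ α → 0 ≤ A → ∀ (Λ : Bool → Set K3) (s : Bool), Modes Λ →
  (∀ (R : ℝ) (F : Finset K3), 1 ≤ R → (∀ k ∈ F, k ∈ Λ s ∧ nm k ≤ R) →
    (F.card : ℝ) ≤ A * R ^ (2 * α)) →
  Sparse α Λ (A * (1 + 2 ^ (2 * α)))

/-- independence of a family of events indexed by sign and frequency up to sign: for every finite
set of indices which contains no two opposite ones, the probability of the intersection is the product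
of the probabilities -/
def SymIndep {Ω : Type} [MeasurableSpace Ω] (P : Measure Ω) (X : Bool → K3 → Set Ω) : Prop :=
  ∀ J : Finset (Bool × K3), (∀ j ∈ J, (j.1, -j.2) ∉ J) →
    P (⋂ j ∈ J, X j.1 j.2) = ∏ j ∈ J, P (X j.1 j.2)

/-- RAND: random sets of modes -/
def S_RAND : Prop := ∀ (α : ℝ), 1 ≤ α → α ≤ 5 / 4 → ∀ D : Bool → ℝ, (∀ s, D s ≤ 3) →
  D true + D false ≤ 4 * α + 1 →
  ∀ (Ω : Type) [MeasurableSpace Ω] (P : Measure Ω) [IsProbabilityMeasure P]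
    (X : Bool → K3 → Set Ω), (∀ s k, MeasurableSet (X s k)) → (∀ s k, X s (-k) = X s k) →
    (∀ s, X s 0 = ∅) → SymIndep P X →
    (∀ s k, k ≠ 0 → P (X s k) ≤ ENNReal.ofReal (nm k ^ (D s - 3))) →
    ∀ᵐ ω ∂P, ∃ A : ℝ, 0 ≤ A ∧ Sparse α (fun s => {k | ω ∈ X s k}) A

/-! ### the theorem -/

/-- MAIN -/
def S_MAIN : Prop := ∀ (α A : ℝ) (Λ : Bool → Set K3), 1 ≤ α → 0 ≤ A → Modes Λ → Sparse α Λ A →
  GlobReg α Λ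

end

end Pool.Agent.W229.HD
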