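import Pool.Agent.W229.HD.Uni
import Pool.Agent.W229.HD.Main
import Pool.Agent.W347.HD.HEL
import Pool.Agent.W597.HD.DEC
import Pool.Agent.W762.HD.DET
import Pool.Agent.W143.HD.TRI
import Pool.Agent.W369.HD.ENE
import Pool.Agent.W839.HD.ANT
import Pool.Agent.W918.HD.LAT
import Pool.Agent.W585.HD.CSM
import Pool.Agent.W240.HD.ODE
import Pool.Agent.W460.HD.GRON
import Pool.Agent.W338.HD.LIM
import Pool.Agent.W790.HD.Uniq
import Pool.Agent.W924.HD.TWO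
import Pool.Agent.W975.HD.Rand

/-!
Project HD: the parts put together.
-/

set_option autoImplicit false
set_option linter.all false

open MeasureTheory Set Filter Topology

namespace Pool.Agent.W229.HD

theorem s_dec : S_DEC := Pool.Agent.W597.HDD.decS Pool.Agent.W347.HD.hel_main

theorem s_main (hCSH : S_CSH) (hDQ : S_DQ) : S_MAIN :=
  main s_dec
    (uni Pool.Agent.W369.HD.ene
      (crit Pool.Agent.W347.HD.hel_main s_dec (Pool.Agent.W762.HD.det Pool.Agent.W347.HD.hel_main)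
        (Pool.Agent.W143.HD.tri Pool.Agent.W347.HD.hel_main) hCSH)
      (high Pool.Agent.W839.HD.ant (Pool.Agent.W585.HD.csm Pool.Agent.W918.HD.lat))
      Pool.Agent.W918.HD.lat hDQ Pool.Agent.W460.HD.gron)
    (Pool.Agent.W240.HD.ode s_dec Pool.Agent.W369.HD.ene)
    (Pool.Agent.W338.HD.lim s_dec Pool.Agent.W918.HD.lat)
    (Pool.Agent.W790.HD.uniq s_dec Pool.Agent.W918.HD.lat)

/-- with all the modes, the decimation is the Leray projection -/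
theorem dec_all (k : K3) (hk : k ≠ 0) (v : E3) :
    dec (fun _ => {k | k ≠ 0}) k v = v - (dt (kc k) v / ((nm k ^ 2 : ℝ) : ℂ)) • kc k := by
  unfold dec
  have hk' : ∀ s : Bool, k ∈ (fun _ : Bool => {k : K3 | k ≠ 0}) s := fun s => hk
  rw [Fintype.sum_bool, if_pos (hk' true), if_pos (hk' false)]
  unfold hel
  have h1 : ((sg false / nm k : ℝ) : ℂ) = -((sg true / nm k : ℝ) : ℂ) := by
    rw [← Complex.ofReal_neg]
    congr 1
    simp [sg, neg_div]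
  rw [h1]
  module

theorem s_final (hm : S_MAIN) :
    (∀ (α A : ℝ) (Λ : Bool → Set K3), 1 ≤ α → 0 ≤ A → Modes Λ → Sparse α Λ A → GlobReg α Λ) ∧
    (∀ (α A : ℝ) (Λ : Bool → Set K3) (s : Bool), 1 ≤ α → 0 ≤ A → Modes Λ →
      (∀ (R : ℝ) (F : Finset K3), 1 ≤ R → (∀ k ∈ F, k ∈ Λ s ∧ nm k ≤ R) →
        (F.card : ℝ) ≤ A * R ^ (2 * α)) → GlobReg α Λ) ∧
    (∀ α : ℝ, 1 ≤ α → α ≤ 5 / 4 → ∀ D : Bool → ℝ, (∀ s, D s ≤ 3) →
      D true + D false ≤ 4 * α + 1 →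
      ∀ (Ω : Type) [MeasurableSpace Ω] (P : Measure Ω) [IsProbabilityMeasure P]
        (X : Bool → K3 → Set Ω), (∀ s k, MeasurableSet (X s k)) → (∀ s k, X s (-k) = X s k) →
        (∀ s, X s 0 = ∅) →
        (∀ J : Finset (Bool × K3), (∀ j ∈ J, (j.1, -j.2) ∉ J) →
          P (⋂ j ∈ J, X j.1 j.2) = ∏ j ∈ J, P (X j.1 j.2)) →
        (∀ s k, k ≠ 0 → P (X s k) ≤ ENNReal.ofReal (nm k ^ (D s - 3))) →
        ∀ᵐ ω ∂P, GlobReg α fun s => {k | ω ∈ X s k}) ∧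
    (∀ k : K3, k ≠ 0 → ∀ v : E3,
      dec (fun _ => {k | k ≠ 0}) k v = v - (dt (kc k) v / ((nm k ^ 2 : ℝ) : ℂ)) • kc k) := by
  refine ⟨hm, ?_, ?_, dec_all⟩
  · intro α A Λ s hα hA hΛ hc
    exact hm α (A * (1 + 2 ^ (2 * α))) Λ hα (by positivity) hΛ
      (Pool.Agent.W924.HD.T_TWO α A hα hA Λ s hΛ hc)
  · intro α hα1 hα2 D hD hDD Ω _ P _ X hX hneg h0 hind hP
    have h := Pool.Agent.W975.HD.rand Pool.Agent.W918.HD.lat α hα1 hα2 D hD hDD Ω P X hX hneg h0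
      hind hP
    filter_upwards [h] with ω hω
    obtain ⟨A, hA, hS⟩ := hω
    refine hm α A _ hα1 hA ⟨fun s hs => ?_, fun s k hk => ?_⟩ hS
    · rw [Set.mem_setOf_eq, h0 s] at hs
      exact hs
    · rw [Set.mem_setOf_eq, hneg s k]
      exact hk

end Pool.Agent.W229.HD
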