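import Pool.Agent.W229.HD.Fin
import Pool.Agent.W229.HD.CSH
import Pool.Agent.W229.HD.DQ

/-!
Project HD: the theorem.
-/

set_option autoImplicit false
set_option linter.all false

open MeasureTheory Set Filter Topology

namespace Pool.Agent.W229.HD

theorem t_main : S_MAIN := s_main csh (dq s_dec)

theorem final :
    (∀ (α A : ℝ) (Λ : Bool → Set K3), 1 ≤ α → 0 ≤ A → Modes Λ → Sparse α Λ A → GlobReg α Λ) ∧
    (∀ (α A : ℝ) (Λ : Bool → Set K3) (s : Bool), 1 ≤ α → 0 ≤ A → Modes Λ →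
      (∀ (R : ℝ) (F : Finset K3), 1 ≤ R → (∀ k ∈ F, k ∈ Λ s ∧ nm k ≤ R) →
        (F.card : ℝ) ≤ A * R ^ (2 * α)) → GlobReg α Λ) ∧
    (∀ α : ℝ, 1 ≤ α → α ≤ 5 / 4 → ∀ D : Bool → ℝ, (∀ s, D s ≤ 3) →
      D true + D false ≤ 4 * α + 1 →
      ∀ (Ω : Type) [MeasurableSpace Ω] (P : Measure Ω) [IsProbabilityMeasure P]
        (X : Bool → K3 → Set Ω), (∀ s k, MeasurableSet (X s k)) → (∀ s k, X s (-k) = X s k) →
        (∀ s, X s 0 = ∅) →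
        (∀ J : Finset (Bool × K3), (∀ j ∈ J, (j.1, -j.2) ∉ J) →
          P (⋂ j ∈ J, X j.1 j.2) = ∏ j ∈ J, P (X j.1 j.2)) →
        (∀ s k, k ≠ 0 → P (X s k) ≤ ENNReal.ofReal (nm k ^ (D s - 3))) →
        ∀ᵐ ω ∂P, GlobReg α fun s => {k | ω ∈ X s k}) ∧
    (∀ k : K3, k ≠ 0 → ∀ v : E3,
      dec (fun _ => {k | k ≠ 0}) k v = v - (dt (kc k) v / ((nm k ^ 2 : ℝ) : ℂ)) • kc k) :=
  s_final t_main

end Pool.Agent.W229.HD
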