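import Pool.Agent.W229.HD.Crit

/-!
Bounds which do not depend on the number of the modes.
-/

set_option autoImplicit false
set_option linter.all false

open MeasureTheory Set Filter Topology

namespace Pool.Agent.W229.HD

theorem init_le {CL : ℝ} (hCL : ∀ F : Finset K3, (∀ l ∈ F, l ≠ 0) → ∑ l ∈ F, (nm l ^ 4)⁻¹ ≤ CL)
    {S : Finset K3} (hS : Fr S) {a : K3 → E3} {M : ℕ → ℝ}
    (hM : ∀ (j : ℕ) (k : K3), nm k ^ j * ‖a k‖ ≤ M j) (j : ℕ) :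
    Q S (2 * j : ℕ) a ≤ M (j + 2) ^ 2 * CL := by
  have hS0 : ∀ k ∈ S, k ≠ 0 := fun k hk h => hS.zero (h ▸ hk)
  have h1 : Q S (2 * j : ℕ) a ≤ ∑ k ∈ S, M (j + 2) ^ 2 * (nm k ^ 4)⁻¹ := by
    refine Finset.sum_le_sum fun k hk => ?_
    have hk0 := nm_pos (hS0 k hk)
    have h2 : (nm k ^ (j + 2) * ‖a k‖) ^ 2 ≤ M (j + 2) ^ 2 := by
      have h0 : 0 ≤ nm k ^ (j + 2) * ‖a k‖ := by positivity
      exact pow_le_pow_left₀ h0 (hM _ _) 2
    rw [Real.rpow_natCast]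
    calc nm k ^ (2 * j) * ‖a k‖ ^ 2 = (nm k ^ (j + 2) * ‖a k‖) ^ 2 * (nm k ^ 4)⁻¹ := by
          field_simp
          ring
      _ ≤ _ := by gcongr
  refine h1.trans ?_
  rw [← Finset.mul_sum]
  exact mul_le_mul_of_nonneg_left (hCL S hS0) (sq_nonneg _)

theorem uni (hE : S_ENE) (hC : S_CRIT) (hH : S_HIGH) (hL : S_LAT) (hD : S_DQ) (hG : S_GRON) :
    S_UNI := by
  classical
  obtain ⟨C, hC0, HC⟩ := hC
  obtain ⟨CL, hCL0, -, hCL, -⟩ := hL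
  intro α ν A hα hν hA M m
  obtain ⟨Cm, hCm0, HCm⟩ := hH (m + 1) (by omega)
  set B : ℕ → ℝ := fun j => M (j + 2) ^ 2 * CL with hB
  have hB0 : ∀ j, 0 ≤ B j := fun j => mul_nonneg (sq_nonneg _) hCL0
  set G1 : ℝ := B 0 / ν with hG1
  have hG10 : 0 ≤ G1 := div_nonneg (hB0 0) hν.le
  set c1 : ℝ := C * Real.sqrt A with hc1
  have hc10 : 0 ≤ c1 := mul_nonneg hC0 (Real.sqrt_nonneg _)
  set e1 : ℝ := 1 + c1 ^ 2 * G1 / ν * Real.exp (c1 ^ 2 * G1 / ν) with he1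
  have he10 : 0 ≤ e1 := by positivity
  set G2 : ℝ := B 1 * e1 / ν with hG2
  have hG20 : 0 ≤ G2 := div_nonneg (mul_nonneg (hB0 1) he10) hν.le
  refine ⟨Real.sqrt (B (m + 1) * Real.exp (Cm ^ 2 * G2 / ν)), ?_⟩
  intro Λ a hΛ hfin hsp hsol hM t ht k
  set S : Finset K3 := (hfin true).toFinset ∪ (hfin false).toFinset with hSdef
  have hmemS : ∀ k, k ∈ S ↔ k ∈ Λ true ∨ k ∈ Λ false := by
    intro k
    simp [hSdef]
  obtain ⟨hS, hF, hDQ⟩ := hD α ν Λ a S hΛ hmemS hsol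
  have hS0 : ∀ k ∈ S, k ≠ 0 := fun k hk h => hS.zero (h ▸ hk)
  have hcont : ∀ r : ℝ, ContinuousOn (fun τ => Q S r (a τ)) (Ici 0) := fun r τ hτ =>
    (hDQ r τ hτ).continuousWithinAt
  have hinit : ∀ j : ℕ, Q S (2 * j : ℕ) (a 0) ≤ B j := fun j => init_le hCL hS hM j
  -- energy
  have hen : ∀ τ, 0 ≤ τ → ∫ σ in (0 : ℝ)..τ, Q S (2 * α) (a σ) ≤ G1 := by
    intro τ hτ
    have h := (hG ν 0 0 (fun σ => Q S 0 (a σ)) (fun σ => Q S (2 * α) (a σ)) (fun _ => 0)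
      (fun σ => -2 * ν * Q S (0 + 2 * α) (a σ) - 2 * Pr S 0 (a σ)) hν le_rfl le_rfl
      (fun σ _ => ⟨Q_nonneg _ _ _, Q_nonneg _ _ _, le_rfl⟩) (hcont _) continuousOn_const
      (fun σ hσ => hDQ 0 σ hσ) (fun σ hσ => by
        rw [hE S (a σ) hS (hF σ hσ)]
        simp) (fun σ _ => by simp) τ hτ).2
    have h0 := hinit 0
    simp only [mul_zero, Nat.cast_zero] at h0
    rw [hG1, le_div_iff₀ hν]
    simp only [ne_eq, OfNat.ofNat_ne_zero, not_false_eq_true, zero_pow, mul_zero, zero_div,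
      Real.exp_zero, mul_one, add_zero] at h
    linarith
  -- the critical norm
  have hcr : ∀ τ, 0 ≤ τ → ∫ σ in (0 : ℝ)..τ, Q S (1 + 2 * α) (a σ) ≤ G2 := by
    intro τ hτ
    have h := (hG ν c1 G1 (fun σ => Q S 1 (a σ)) (fun σ => Q S (1 + 2 * α) (a σ))
      (fun σ => Q S (2 * α) (a σ))
      (fun σ => -2 * ν * Q S (1 + 2 * α) (a σ) - 2 * Pr S 1 (a σ)) hν hc10 hG10
      (fun σ _ => ⟨Q_nonneg _ _ _, Q_nonneg _ _ _, Q_nonneg _ _ _⟩) (hcont _) (hcont _)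
      (fun σ hσ => hDQ 1 σ hσ) (fun σ hσ => by
        have h1 := HC α A Λ hα hA hΛ hsp S (a σ) hS (hF σ hσ) (hsol.adm σ hσ)
        rw [Real.sqrt_mul hA, ← mul_assoc] at h1
        have h2 := neg_abs_le (Pr S 1 (a σ))
        have h3 : c1 * Real.sqrt (Q S (1 + 2 * α) (a σ) * Q S (2 * α) (a σ) * Q S 1 (a σ)) ≥
            |Pr S 1 (a σ)| := h1
        linarith) hen τ hτ).2
    have h0 := hinit 1
    have h5 : Q S 1 (a 0) ≤ B 1 := by
      refine le_trans (Q_mono hS.zero ?_ _) h0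
      norm_num
    rw [hG2, le_div_iff₀ hν]
    have h6 : Q S 1 (a 0) * e1 ≤ B 1 * e1 := mul_le_mul_of_nonneg_right h5 he10
    rw [mul_comm]
    exact h.trans h6
  -- the higher norms
  have hhi : Q S (2 * (m + 1) : ℕ) (a t) ≤ B (m + 1) * Real.exp (Cm ^ 2 * G2 / ν) := by
    have h := (hG ν Cm G2 (fun σ => Q S (2 * (m + 1) : ℕ) (a σ))
      (fun σ => Q S ((2 * (m + 1) : ℕ) + 2 * α) (a σ))
      (fun σ => Q S (1 + 2 * α) (a σ))
      (fun σ => -2 * ν * Q S ((2 * (m + 1) : ℕ) + 2 * α) (a σ)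
        - 2 * Pr S (2 * (m + 1) : ℕ) (a σ)) hν hCm0 hG20
      (fun σ _ => ⟨Q_nonneg _ _ _, Q_nonneg _ _ _, Q_nonneg _ _ _⟩) (hcont _) (hcont _)
      (fun σ hσ => hDQ _ σ hσ) (fun σ hσ => by
        have h1 := HCm S (a σ) hS (hF σ hσ)
        have h2 := neg_abs_le (Pr S (2 * (m + 1) : ℕ) (a σ))
        have q1 : Q S 3 (a σ) ≤ Q S (1 + 2 * α) (a σ) := Q_mono hS.zero (by linarith) _
        have q2 : Q S (2 * (m + 1) + 2 : ℕ) (a σ) ≤ Q S ((2 * (m + 1) : ℕ) + 2 * α) (a σ) := by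
          refine Q_mono hS.zero ?_ _
          push_cast
          linarith
        have h3 : Real.sqrt (Q S 3 (a σ) * Q S (2 * (m + 1) : ℕ) (a σ)
            * Q S (2 * (m + 1) + 2 : ℕ) (a σ)) ≤
            Real.sqrt (Q S ((2 * (m + 1) : ℕ) + 2 * α) (a σ) * Q S (1 + 2 * α) (a σ)
              * Q S (2 * (m + 1) : ℕ) (a σ)) := by
          refine Real.sqrt_le_sqrt ?_
          calc Q S 3 (a σ) * Q S (2 * (m + 1) : ℕ) (a σ) * Q S (2 * (m + 1) + 2 : ℕ) (a σ)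
              ≤ Q S (1 + 2 * α) (a σ) * Q S (2 * (m + 1) : ℕ) (a σ)
                * Q S ((2 * (m + 1) : ℕ) + 2 * α) (a σ) := by
                refine mul_le_mul (mul_le_mul_of_nonneg_right q1 (Q_nonneg _ _ _)) q2
                  (Q_nonneg _ _ _) (mul_nonneg (Q_nonneg _ _ _) (Q_nonneg _ _ _))
            _ = _ := by ring
        have h4 := mul_le_mul_of_nonneg_left h3 hCm0
        linarith) hcr t ht).1
    refine h.trans ?_
    exact mul_le_mul_of_nonneg_right (hinit (m + 1)) (Real.exp_pos _).le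
  by_cases hk : k ∈ S
  · have hk1 := one_le_nm (hS0 k hk)
    have h1 : (nm k ^ (m + 1) * ‖a t k‖) ^ 2 ≤ Q S (2 * (m + 1) : ℕ) (a t) := by
      have h2 : nm k ^ (((2 * (m + 1) : ℕ)) : ℝ) * ‖a t k‖ ^ 2 ≤ Q S (2 * (m + 1) : ℕ) (a t) :=
        Finset.single_le_sum (f := fun k => nm k ^ (((2 * (m + 1) : ℕ)) : ℝ) * ‖a t k‖ ^ 2)
          (fun k _ => mul_nonneg (Real.rpow_nonneg (nm_nonneg _) _) (sq_nonneg _)) hk
      rw [Real.rpow_natCast] at h2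
      calc (nm k ^ (m + 1) * ‖a t k‖) ^ 2 = nm k ^ (2 * (m + 1)) * ‖a t k‖ ^ 2 := by ring
        _ ≤ _ := h2
    have h3 : nm k ^ m * ‖a t k‖ ≤ nm k ^ (m + 1) * ‖a t k‖ :=
      mul_le_mul_of_nonneg_right (pow_le_pow_right₀ hk1 (by omega)) (norm_nonneg _)
    refine h3.trans (Real.le_sqrt_of_sq_le (h1.trans hhi))
  · have : a t k = 0 := (hF t ht).supp k hk
    rw [this]
    simp

end Pool.Agent.W229.HD
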